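import Mathlib
import Pool.Agent.H.MP_eb7acf_gt.A
import Pool.Agent.Lib.helper24.Succ

set_option autoImplicit false

open Set Filter Topology
open Cardinal hiding univ
open Pool.Agent.H.MP_eb7acf_gt Pool.Agent.Lib.helper24.Succ

namespace Pool.Agent.H.MP_7b4824_gt

theorem main : ∃ G : AddSubgroup (W ℵ₀ → ℤ), (∀ x ∈ G, (Function.support x).Countable) ∧
    ∀ [TopologicalSpace G], (∀ x : G, (𝓝 x).HasBasis (fun _ : W ℵ₀ => True)
      fun a => {y | ∀ c, c < a → y.1 c = x.1 c}) →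
    ∀ S : Set G, DiscreteTopology S → IsClosed (insert 0 S) →
      ¬ Dense (AddSubgroup.closure S : Set G) := by
  classical
  have hb : ∀ u : ℕ → W ℵ₀, ∃ b, ∀ n, u n < b := fun u => bdd_range le_rfl mk_le_aleph0 u
  obtain ⟨G', H, -, g1', g2, g4', g5', g6'⟩ := alg (L := W ℵ₀) (mk_W _ ▸ Order.lt_succ _)
    (fun a => mk_W _ ▸ Order.lt_succ_iff.2 (card_Iio a))
    (fun A hA => bdd le_rfl A (Order.lt_succ_iff.1 (mk_W _ ▸ hA))) hb
  let G : AddSubgroup (W ℵ₀ → ℤ) :=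
    { carrier := {x | toLex x ∈ G' ∧ (Function.support x).Countable}
      add_mem' := fun hx hy => ⟨add_mem hx.1 hy.1,
        (hx.2.union hy.2).mono (Function.support_add _ _)⟩
      zero_mem' := ⟨zero_mem _, by simp⟩
      neg_mem' := fun hx => ⟨neg_mem hx.1, by simpa using hx.2⟩ }
  have g1 : ∀ d, H d ≤ G := fun d g hg => ⟨g1' d hg, (le_aleph0_iff_set_countable.1
    (card_Iio d)).mono fun c hc => not_le.1 fun h => hc (g2 d g hg c h)⟩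
  have g4 : ∀ g ∈ G, {d | ¬ ∃ g' ∈ H d, ∀ c, c < d → g c = g' c}.Finite := fun g hg => g4' g hg.1
  have g5 : ∀ (η : G → W ℵ₀) (a : W ℵ₀), ∃ d, a < d ∧ ∀ g : G, toLex g.1 ∈ H d → η g < d :=
    fun η a => (g5' (fun g => if h : g.1 ∈ G then η ⟨g.1, h⟩ else a) a).imp fun d hd =>
      ⟨hd.1, fun g hg => (dif_pos g.2).symm.trans_lt (hd.2 ⟨_, g.2.1⟩ hg)⟩
  have g6 : ∀ (d : W ℵ₀) (u : ℕ → W ℵ₀), StrictMono u → (∀ n, u n < d) →
      (∀ c, c < d → ∃ n, c < u n) →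
        ∃ g : G, ∀ c, c < d → ∃ a, c ≤ a ∧ a < d ∧ g.1 a ≠ 0 := fun d u u1 u2 u3 => by
    obtain ⟨g, hg⟩ := g6' d u u1 u2 u3
    obtain ⟨b, hb⟩ := bdd_countable le_rfl _ ((g4' g g.2).countable.insert d)
    obtain ⟨g', p1, p2⟩ := not_not.1 fun h => lt_irrefl _ (hb b (Or.inr h))
    exact ⟨⟨g', g1 b p1⟩, fun c hc => (hg c hc).imp fun a ha => ⟨ha.1, ha.2.1,
      (p2 a (ha.2.1.trans (hb d (Or.inl rfl)))).symm.trans_ne ha.2.2⟩⟩
  refine ⟨G, fun x hx => hx.2, fun hB S s1 s2 s3 => ?_⟩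
  clear_value G
  have k1 : ∀ a, ∃ b, a < b ∧ ∀ s ∈ S, (∃ c, c < a ∧ s.1 c ≠ 0) → ∀ c, b ≤ c → s.1 c = 0 := by
    intro a
    have : ∀ g : G, ∃ b, ∀ s ∈ S, (∃ c, c < a ∧ s.1 c ≠ 0) →
        (∀ c, c < b → s.1 c = g.1 c) → s = g := fun g => by
      by_cases h : g ∈ S
      · obtain ⟨V, v1, v2⟩ := isDiscrete_iff_forall_mem_exists_isOpen.1 ⟨s1⟩ g h
        obtain ⟨b, -, hb⟩ := (hB g).mem_iff.1 (v1.mem_nhds (v2.symm.subset rfl).1)
        exact ⟨b, fun s hs _ h' => v2.subset ⟨hb h', hs⟩⟩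
      · by_cases h0 : g = 0
        · exact ⟨a, fun s _ ⟨c, c1, c2⟩ h' => absurd ((h' c c1).trans (by rw [h0]; rfl)) c2⟩
        · obtain ⟨b, -, hb⟩ := (hB g).mem_iff.1 (s2.isOpen_compl.mem_nhds
            fun h' => h'.elim h0 h)
          exact ⟨b, fun s hs _ h' => absurd (Or.inr hs) (hb h')⟩
    choose η hη using this
    choose F f1 f2 using g5 η
    obtain ⟨u, d, u0, u1, u2, u3, -⟩ := lub hb F f1 a
    refine ⟨d, u0 ▸ u3 0, fun s hs hs' c hc => ?_⟩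
    obtain ⟨_, ⟨n, rfl⟩, hn⟩ := (infinite_range_of_injective
      (u1.injective.comp (add_left_injective 1))).exists_notMem_finite (g4 s s.2)
    obtain ⟨g, p1, p2⟩ := not_not.1 hn
    have h6 := f2 (u n) ⟨g, g1 _ p1⟩ (u2 n ▸ p1)
    rw [hη ⟨g, g1 _ p1⟩ s hs hs' fun c hc => p2 c (hc.trans (h6.trans_eq (u2 n).symm))]
    exact g2 _ g p1 c ((u3 _).le.trans hc)
  choose F f1 f2 using k1
  obtain ⟨u, d, -, u1, u2, u3, u4⟩ := lub hb F f1 (Classical.arbitrary _)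
  have k2 : ∀ g ∈ AddSubgroup.closure S, ∃ n, ∀ c, u n ≤ c → c < d → g.1 c = 0 := fun g hg => by
    induction hg using AddSubgroup.closure_induction with
    | mem s hs =>
      rcases em (∃ c, c < d ∧ s.1 c ≠ 0) with ⟨c, c1, c2⟩ | h
      · obtain ⟨n, hn⟩ := u4 c c1
        exact ⟨n + 1, fun c' h _ => f2 _ s hs ⟨c, hn, c2⟩ c' (u2 n ▸ h)⟩
      · exact ⟨0, fun c _ hc => not_not.1 fun h' => h ⟨c, hc, h'⟩⟩
    | zero => exact ⟨0, fun _ _ _ => rfl⟩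
    | add _ _ _ _ h h' =>
      obtain ⟨n, hn⟩ := h
      obtain ⟨m, hm⟩ := h'
      exact ⟨max n m, fun c c1 c2 => (congrArg₂ (· + ·)
        (hn c ((u1.monotone (le_max_left _ _)).trans c1) c2)
        (hm c ((u1.monotone (le_max_right _ _)).trans c1) c2)).trans (add_zero _)⟩
    | neg _ _ h => exact h.imp fun n hn c c1 c2 => neg_eq_zero.2 (hn c c1 c2)
  obtain ⟨z, hz⟩ := g6 d u u1 u3 u4
  obtain ⟨g, p1, p2⟩ := (mem_closure_iff_nhds_basis (hB z)).1 (s3 _) d trivial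
  obtain ⟨n, hn⟩ := k2 g p1
  obtain ⟨c, q1, q2, q3⟩ := hz (u n) (u3 n)
  exact q3 ((p2 c q2).symm.trans (hn c q1 q2))

end Pool.Agent.H.MP_7b4824_gt
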